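import Pool.Agent.H32.S36.Targets

set_option autoImplicit false

open Complex Polynomial

namespace Pool.Agent.H32.S36

theorem F1_dvd (p : ℕ) (hp : p.Prime) (n b : ℤ) (hn : ¬ (p : ℤ) ∣ n)
    (h : (p : ℤ) ^ 2 ∣ n * (n * (n * b))) : (p : ℤ) ^ 2 ∣ b := by
  have hpp : Prime (p : ℤ) := Nat.prime_iff_prime_int.mp hp
  have hc : IsCoprime ((p : ℤ) ^ 2) n :=
    ((Prime.coprime_iff_not_dvd hpp).mpr hn).pow_left
  exact hc.dvd_of_dvd_mul_left (hc.dvd_of_dvd_mul_left (hc.dvd_of_dvd_mul_left h))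

theorem F1_aeval (m : ℤ) (x : LaurentSeries ℤ) (S : Polynomial ℤ) (h : ∀ i : ℕ, m ∣ S.coeff i) :
    (m : LaurentSeries ℤ) ∣ aeval x S := by
  have h1 : Polynomial.C m ∣ S := (Polynomial.C_dvd_iff_dvd_coeff m S).mpr h
  obtain ⟨T, rfl⟩ := h1
  refine ⟨aeval x T, ?_⟩
  rw [map_mul]
  congr 1
  simp

theorem m_F1 (h1 : T_HP) (h2 : T_D3) (h3 : T_PFK) (h4 : T_TRI) (h5 : T_ODP) (h6 : T_TTC) :
    T_F1 := by
  intro x h D xz hz dz hPK p hpf hp2 hp5
  obtain ⟨P, u, hu0, hu1, hu2⟩ := h1 x h D xz hz dz hPK p hp2 hp5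
  have hp : p.Prime := hpf.out
  have hFK : FK xz hz := h3 x h D xz hz dz hPK
  have hd3 : DV ((p : ℤ) ^ 2) (th (th (th (aeval xz (TT p) * hz)))) :=
    h2 xz hz hFK (TT p) ((p : ℤ) ^ 2) (h5 p hp hp2).1
  unfold DV at hd3
  rw [dvd_iff] at hd3
  have hT := h4 xz hz hFK.xlow hFK.xm1 hFK.hlow hFK.hm1
  have hTT := h6.2.2 p hp.one_lt.le
  have hdeg : (((TT p).natDegree : ℕ) : ℤ) + 1 = (p : ℤ) := by
    rw [hTT.1, Nat.cast_sub hp.one_lt.le]; push_cast; ring
  have h7 := (hT (TT p)).2.2 hTT.2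
  have key : aeval xz (TT p - P) * hz
      = aeval xz (TT p) * hz - VV p hp.pos hz - ((p : ℤ) ^ 3 : ℤ) * u := by
    rw [map_sub, sub_mul, hu1]; ring
  have hS : ∀ i : ℕ, (p : ℤ) ^ 2 ∣ (TT p - P).coeff i := by
    refine (hT (TT p - P)).2.1 ((p : ℤ) ^ 2) ?_
    intro n hn
    rw [key, HahnSeries.coeff_sub, HahnSeries.coeff_sub, intCast_mul_coeff, hu0 n hn, mul_zero,
      sub_zero]
    by_cases hpn : (p : ℤ) ∣ n
    · obtain ⟨k, rfl⟩ := hpn
      rw [VV_coeff_mul]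
      have hpos : (0 : ℤ) < (p : ℤ) := by exact_mod_cast hp.pos
      have hk : k < 0 := by
        by_contra hc
        push Not at hc
        have := mul_nonneg hpos.le hc
        linarith
      rcases eq_or_lt_of_le (show k ≤ -1 by omega) with hk1 | hk1
      · subst hk1
        have e1 : (p : ℤ) * -1 = -((((TT p).natDegree : ℕ) : ℤ) + 1) := by rw [hdeg]; ring
        have e2 : (aeval xz (TT p) * hz).coeff ((p : ℤ) * -1) = 1 := by
          rw [e1]; exact h7.2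
        rw [e2, hFK.hm1, sub_self]
        exact dvd_zero _
      · have e2 : (aeval xz (TT p) * hz).coeff ((p : ℤ) * k) = 0 := by
          refine h7.1 _ ?_
          rw [hdeg]
          nlinarith
        rw [e2, hFK.hlow k hk1, sub_self]
        exact dvd_zero _
    · rw [VV_coeff_of_not_dvd p hp.pos hz n hpn, sub_zero]
      have h8 := hd3 n
      simp only [th_coeff] at h8
      exact F1_dvd p hp n _ hpn (by simpa using h8)
  refine ⟨P, hS, hu2, ?_⟩
  unfold DV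
  have e3 : aeval xz (TT p) * hz - VV p hpf.out.pos hz
      = aeval xz (TT p - P) * hz + ((p : ℤ) ^ 3 : ℤ) * u := by
    rw [key]; ring
  rw [e3]
  refine dvd_add ((F1_aeval _ xz _ hS).mul_right hz) ?_
  refine Dvd.dvd.mul_right ?_ u
  refine ⟨((p : ℤ) : LaurentSeries ℤ), ?_⟩
  push_cast
  ring

end Pool.Agent.H32.S36
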