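import Pool.Agent.H32.S36.Targets

set_option autoImplicit false

open Complex Polynomial

namespace Pool.Agent.H32.S36

theorem IN0_aux (p : ℕ) (hp : p.Prime) (n b : ℤ)
    (h : (p : ℤ) ^ 4 ∣ n * (n * (n * b))) : (p : ℤ) ^ 2 ∣ n * b := by
  have hpp : Prime (p : ℤ) := Nat.prime_iff_prime_int.mp hp
  have hp0 : (p : ℤ) ≠ 0 := hpp.ne_zero
  by_cases h1 : (p : ℤ) ∣ n
  · obtain ⟨k, rfl⟩ := h1
    by_cases h2 : (p : ℤ) ∣ k
    · obtain ⟨l, rfl⟩ := h2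
      exact ⟨l * b, by ring⟩
    · have h3 : (p : ℤ) ^ 3 * (p : ℤ) ∣ (p : ℤ) ^ 3 * (k ^ 3 * b) := by
        have e1 : (p : ℤ) ^ 3 * (p : ℤ) = (p : ℤ) ^ 4 := by ring
        have e2 : (p : ℤ) ^ 3 * (k ^ 3 * b) = (p : ℤ) * k * ((p : ℤ) * k * ((p : ℤ) * k * b)) := by
          ring
        rw [e1, e2]; exact h
      have h4 : (p : ℤ) ∣ k ^ 3 * b := (mul_dvd_mul_iff_left (pow_ne_zero 3 hp0)).mp h3
      rcases hpp.dvd_or_dvd h4 with h5 | h5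
      · exact absurd (hpp.dvd_of_dvd_pow h5) h2
      · obtain ⟨c, rfl⟩ := h5
        exact ⟨k * c, by ring⟩
  · have hc : IsCoprime ((p : ℤ) ^ 4) n :=
      ((Prime.coprime_iff_not_dvd hpp).mpr h1).pow_left
    have h5 : (p : ℤ) ^ 4 ∣ b := hc.dvd_of_dvd_mul_left
      (hc.dvd_of_dvd_mul_left (hc.dvd_of_dvd_mul_left h))
    exact (pow_dvd_pow (p : ℤ) (by norm_num : 2 ≤ 4)).trans (h5.mul_left n)

theorem m_IN0 (h1 : T_D3) (h2 : T_ODP) : T_IN0 := by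
  intro x h hF p hp hp2
  have h3 := h1 x h hF (TT (p ^ 2)) ((p : ℤ) ^ 4) (h2 p hp hp2).2
  unfold DV at *
  rw [dvd_iff] at h3 ⊢
  intro n
  have h4 := h3 n
  simp only [th_coeff] at h4 ⊢
  exact IN0_aux p hp n _ (by simpa using h4)

end Pool.Agent.H32.S36
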