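import Pool.Agent.H32.S36.Targets

set_option autoImplicit false

open Complex Polynomial

namespace Pool.Agent.H32.S36

theorem P3N_ne (z : ℂ) : qq z ≠ 0 := Complex.exp_ne_zero _

theorem P3N_add (a b : ℂ) : qq (a + b) = qq a * qq b := by
  unfold qq
  rw [← Complex.exp_add]
  congr 1
  ring

theorem P3N_nat (k : ℕ) (a : ℂ) : qq (k * a) = qq a ^ k := by
  unfold qq
  rw [← Complex.exp_nat_mul]
  congr 1
  ring

theorem P3N_natOne (k : ℕ) : qq (k : ℂ) = 1 := by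
  unfold qq
  rw [Complex.exp_eq_one_iff]
  exact ⟨k, by push_cast; ring⟩

theorem P3N_cube (τ : ℂ) (J : ℕ) : qq ((τ + J) / 3) ^ 3 = qq τ := by
  rw [← P3N_nat 3]
  have h : ((3 : ℕ) : ℂ) * ((τ + J) / 3) = τ + J := by push_cast; ring
  rw [h, P3N_add, P3N_natOne, mul_one]

theorem P3N_split (τ : ℂ) (J : ℕ) : qq ((τ + J) / 3) = qq (1 / 3) ^ J * qq (τ / 3) := by
  have h : (τ + J) / 3 = (J : ℂ) * (1 / 3) + τ / 3 := by ring
  rw [h, P3N_add, P3N_nat]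

theorem P3N_root : qq (1 / 3) ^ 3 = 1 ∧ qq (1 / 3) ^ 2 + qq (1 / 3) + 1 = 0 := by
  have h3 : qq (1 / 3) ^ 3 = 1 := by
    have h := P3N_cube 1 0
    have e : ((1 : ℂ) + ((0 : ℕ) : ℂ)) / 3 = 1 / 3 := by push_cast; ring
    rw [e] at h
    rw [h]
    have := P3N_natOne 1
    simpa using this
  refine ⟨h3, ?_⟩
  have hne : qq (1 / 3) ≠ 1 := by
    have h := Complex.isPrimitiveRoot_exp 3 (by norm_num)
    have h1 := h.ne_one (by norm_num)
    have e : qq (1 / 3) = Complex.exp (2 * Real.pi * Complex.I / ((3 : ℕ) : ℂ)) := by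
      unfold qq
      congr 1
      push_cast
      ring
    rw [e]
    exact h1
  have h4 : (qq (1 / 3) - 1) * (qq (1 / 3) ^ 2 + qq (1 / 3) + 1) = 0 := by
    linear_combination h3
  rcases mul_eq_zero.mp h4 with h5 | h5
  · exact absurd (sub_eq_zero.mp h5) hne
  · exact h5

noncomputable def P3Ng (hz : LaurentSeries ℤ) (r : ℤ) (τ : ℂ) : ℂ :=
  ∑' k : ℤ, ((hz.coeff (3 * k + r) : ℤ) : ℂ) * qq τ ^ k

theorem P3N_inj (r : ℤ) : Function.Injective (fun k : ℤ => 3 * k + r) := by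
  intro a b h
  simp only at h
  omega

theorem P3N_im (τ : ℂ) (hτ : 0 < τ.im) (J : ℕ) : 0 < ((τ + J) / 3).im := by
  have h : ((τ + J) / 3).im = τ.im / 3 := by
    have e : ((τ + J) / 3) = (((1 / 3 : ℝ) : ℂ)) * (τ + J) := by push_cast; ring
    rw [e, Complex.im_ofReal_mul]
    simp
    ring
  rw [h]
  linarith

theorem P3N_term (hz : LaurentSeries ℤ) (τ : ℂ) (J : ℕ) (r k : ℤ) :
    (zc hz).coeff (3 * k + r) * qq ((τ + J) / 3) ^ (3 * k + r)
      = qq ((τ + J) / 3) ^ r * (((hz.coeff (3 * k + r) : ℤ) : ℂ) * qq τ ^ k) := by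
  rw [zc_coeff, zpow_add₀ (P3N_ne _), zpow_mul]
  have h : qq ((τ + J) / 3) ^ (3 : ℤ) = qq τ := by
    have := P3N_cube τ J
    exact_mod_cast this
  rw [h]
  ring

theorem P3N_summable (h : ℂ → ℂ) (hz : LaurentSeries ℤ) (hh : HL h (zc hz)) (r : ℤ) (τ : ℂ)
    (hτ : 0 < τ.im) : Summable (fun k : ℤ => ((hz.coeff (3 * k + r) : ℤ) : ℂ) * qq τ ^ k) := by
  have h1 := (hh ((τ + (0 : ℕ)) / 3) (P3N_im τ hτ 0)).summable
  have h2 := h1.comp_injective (P3N_inj r)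
  have h3 : (fun k : ℤ => ((hz.coeff (3 * k + r) : ℤ) : ℂ) * qq τ ^ k)
      = fun k : ℤ => (qq ((τ + (0 : ℕ)) / 3) ^ r)⁻¹ *
        (((fun n : ℤ => (zc hz).coeff n * qq ((τ + (0 : ℕ)) / 3) ^ n) ∘ fun k : ℤ => 3 * k + r) k) := by
    funext k
    simp only [Function.comp_apply]
    rw [P3N_term]
    rw [← mul_assoc, inv_mul_cancel₀ (zpow_ne_zero _ (P3N_ne _)), one_mul]
  rw [h3]
  exact h2.mul_left _

theorem P3N_HL (h : ℂ → ℂ) (hz : LaurentSeries ℤ) (hh : HL h (zc hz)) (r : ℤ) :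
    HL (P3Ng hz r) (zc (sec3 r hz)) := by
  intro τ hτ
  have h1 := (P3N_summable h hz hh r τ hτ).hasSum
  have h2 : (fun n : ℤ => (zc (sec3 r hz)).coeff n * qq τ ^ n)
      = fun k : ℤ => ((hz.coeff (3 * k + r) : ℤ) : ℂ) * qq τ ^ k := by
    funext n
    rw [zc_coeff]
    rfl
  rw [h2]
  exact h1

theorem P3N_part (h : ℂ → ℂ) (hz : LaurentSeries ℤ) (hh : HL h (zc hz)) (r : ℤ) (hr0 : 0 ≤ r)
    (hr3 : r < 3) (τ : ℂ) (hτ : 0 < τ.im) (J : ℕ) :
    HasSum (fun n : ℤ => if n % 3 = r then (zc hz).coeff n * qq ((τ + J) / 3) ^ n else 0)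
      (qq ((τ + J) / 3) ^ r * P3Ng hz r τ) := by
  rw [← (P3N_inj r).hasSum_iff]
  · have h1 := ((P3N_summable h hz hh r τ hτ).hasSum).mul_left (qq ((τ + J) / 3) ^ r)
    have h2 : (fun n : ℤ => if n % 3 = r then (zc hz).coeff n * qq ((τ + J) / 3) ^ n else 0) ∘
        (fun k : ℤ => 3 * k + r)
        = fun k : ℤ => qq ((τ + J) / 3) ^ r * (((hz.coeff (3 * k + r) : ℤ) : ℂ) * qq τ ^ k) := by
      funext k
      simp only [Function.comp_apply]
      rw [if_pos (by omega), P3N_term]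
    rw [h2]
    exact h1
  · intro n hn
    rw [if_neg]
    intro hc
    exact hn ⟨n / 3, by simp only; omega⟩

theorem P3N_val (h : ℂ → ℂ) (hz : LaurentSeries ℤ) (hh : HL h (zc hz)) (τ : ℂ) (hτ : 0 < τ.im)
    (J : ℕ) : h ((τ + J) / 3) = P3Ng hz 0 τ + qq ((τ + J) / 3) * P3Ng hz 1 τ
      + qq ((τ + J) / 3) ^ 2 * P3Ng hz 2 τ := by
  have h0 := P3N_part h hz hh 0 (by norm_num) (by norm_num) τ hτ J
  have h1 := P3N_part h hz hh 1 (by norm_num) (by norm_num) τ hτ J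
  have h2 := P3N_part h hz hh 2 (by norm_num) (by norm_num) τ hτ J
  have h3 := (h0.add h1).add h2
  have h4 : (fun n : ℤ => (if n % 3 = 0 then (zc hz).coeff n * qq ((τ + J) / 3) ^ n else 0)
      + (if n % 3 = 1 then (zc hz).coeff n * qq ((τ + J) / 3) ^ n else 0)
      + (if n % 3 = 2 then (zc hz).coeff n * qq ((τ + J) / 3) ^ n else 0))
      = fun n : ℤ => (zc hz).coeff n * qq ((τ + J) / 3) ^ n := by
    funext n
    have h5 : n % 3 = 0 ∨ n % 3 = 1 ∨ n % 3 = 2 := by omega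
    rcases h5 with h5 | h5 | h5 <;> simp [h5]
  rw [h4] at h3
  have h6 := (hh ((τ + J) / 3) (P3N_im τ hτ J)).unique h3
  rw [h6, zpow_zero, one_mul, zpow_one]
  rfl

theorem P3N_prod (f : ZMod 3 → ℂ) : ∏ j : ZMod 3, f j = f 0 * f 1 * f 2 := by
  have h := Fin.prod_univ_three (fun j : Fin 3 => f j)
  exact h

theorem m_P3N : T_P3N := by
  intro h hz hh
  refine ⟨P3Ng hz 0, P3Ng hz 1, P3Ng hz 2, P3N_HL h hz hh 0, P3N_HL h hz hh 1, P3N_HL h hz hh 2, ?_⟩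
  intro τ hτ
  rw [Fintype.prod_option, P3N_prod]
  have e0 : hk 3 h (some (0 : ZMod 3)) τ = 9 * h ((τ + (0 : ℕ)) / 3) := by
    have v : (0 : ZMod 3).val = 0 := rfl
    simp only [hk, v]; norm_num
  have e1 : hk 3 h (some (1 : ZMod 3)) τ = 9 * h ((τ + (1 : ℕ)) / 3) := by
    have v : (1 : ZMod 3).val = 1 := rfl
    simp only [hk, v]; norm_num
  have e2 : hk 3 h (some (2 : ZMod 3)) τ = 9 * h ((τ + (2 : ℕ)) / 3) := by
    have v : (2 : ZMod 3).val = 2 := rfl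
    simp only [hk, v]; norm_num
  have en : hk 3 h none τ = h (3 * τ) := by
    simp only [hk]; norm_num
  rw [e0, e1, e2, en, P3N_val h hz hh τ hτ 0, P3N_val h hz hh τ hτ 1, P3N_val h hz hh τ hτ 2]
  rw [P3N_split τ 0, P3N_split τ 1, P3N_split τ 2]
  have hy : qq (τ / 3) ^ 3 = qq τ := by
    have := P3N_cube τ 0
    simpa using this
  rw [← hy]
  obtain ⟨z3, z2⟩ := P3N_root
  set z := qq (1 / 3) with hzdef
  set y := qq (τ / 3)
  set A := P3Ng hz 0 τ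
  set B := P3Ng hz 1 τ
  set C' := P3Ng hz 2 τ
  set H := h τ
  rw [mul_assoc]
  congr 1
  have key : ∀ al be ga : ℂ, (al + be + ga) * (al + z * be + z ^ 2 * ga) *
      (al + z ^ 2 * be + z ^ 4 * ga) = al ^ 3 + be ^ 3 + ga ^ 3 - 3 * al * be * ga := by
    intro al be ga
    linear_combination (al + be + ga) * ((be ^ 2 + z ^ 3 * ga ^ 2 + ga ^ 2 + z * al * ga
      + z * be * ga + z ^ 2 * be * ga) * z3 + (al * be + al * ga + be * ga) * z2)
  have k := key (3 * H - 9 * A) (-9 * y * B) (-9 * y ^ 2 * C')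
  linear_combination k
end Pool.Agent.H32.S36
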